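import Pool.Agent.R512.G.Fin

/-!
# The logarithmically averaged Elliott conjecture: a uniform gap when one factor is a real valued non-pretentious multiplicative
function (possibly twisted) and the others are arbitrary
-/

set_option autoImplicit false

namespace Pool.Agent.Results.MP_58cfe3_nt.LogGapRealFactor

open Finset Filter Topology

/-- `1`-bounded multiplicative functions on the positive integers -/
def IsMult (g : ℕ → ℂ) : Prop :=
  (∀ n, ‖g n‖ ≤ 1) ∧ ∀ m n : ℕ, 1 ≤ m → 1 ≤ n → Nat.Coprime m n → g (m * n) = g m * g n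

/-- completely multiplicative functions with values `±1` on the positive integers -/
def IsSignMult (f : ℕ → ℤ) : Prop :=
  f 0 = 0 ∧ f 1 = 1 ∧ (∀ m n : ℕ, f (m * n) = f m * f n) ∧ ∀ n : ℕ, 0 < n → f n = 1 ∨ f n = -1

/-- the real function `r` has infinite pretentious distance, over all the primes, from every real
Dirichlet character `χ`, that is `∑ (1 - r p χ p) / p = ∞` -/
def NoRealCharacter (r : ℕ → ℝ) : Prop := ∀ (q : ℕ) (χ : DirichletCharacter ℂ q), 1 ≤ q → χ ^ 2 = 1 →
  ¬ Summable (fun p : Nat.Primes => (1 - r p * (χ ((p : ℕ) : ZMod q)).re) / ((p : ℕ) : ℝ))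

/-- `f(n) χ(n) n ^ (i t)` for a Dirichlet character `χ` and a real `t` -/
noncomputable def twist (f : ℕ → ℤ) {q : ℕ} (χ : DirichletCharacter ℂ q) (t : ℝ) (n : ℕ) : ℂ :=
  (f n : ℂ) * χ (n : ZMod q) * Complex.exp (((t * Real.log n : ℝ) : ℂ) * Complex.I)

/-- `g` is real valued and pretends to be no real character, or `g` is at finite pretentious distance from
`f(n) χ(n) n ^ (i t)` for some completely multiplicative `f` with values `±1` which pretends to be no real
character, some Dirichlet character `χ` and some real `t` -/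
def Admissible (g : ℕ → ℂ) : Prop :=
  (∃ r : ℕ → ℝ, (∀ n, g n = (r n : ℂ)) ∧ NoRealCharacter r) ∨
  ∃ f : ℕ → ℤ, IsSignMult f ∧ NoRealCharacter (fun n => (f n : ℝ)) ∧
    ∃ (q : ℕ) (χ : DirichletCharacter ℂ q) (t : ℝ), 1 ≤ q ∧ Summable (fun p : Nat.Primes =>
      (1 - (g p * (starRingEnd ℂ) (twist f χ t p)).re) / ((p : ℕ) : ℝ))

/-- Let `g j` be real valued and pretend to be no real character (in particular this holds if `g j` is real
valued and satisfies the hypothesis of the conjecture), or let it pretend to be a twist of such a function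
with values `±1`. The logarithmically averaged correlations of `k` arbitrary `1`-bounded multiplicative
functions, one of which is `g j`, along pairwise non-proportional linear forms are, up to every large `N`,
at most `(1 - c k)` times the trivial bound coming from `g j`, where `c k > 0` depends on `k` only. -/
theorem result : ∃ c : ℕ → ℝ, (∀ k, 0 < c k) ∧
    ∀ (k : ℕ) (a b : Fin k → ℕ), (∀ i, 1 ≤ a i) → (∀ i j, i ≠ j → a i * b j ≠ a j * b i) →
    ∀ g : Fin k → ℕ → ℂ, (∀ i, IsMult (g i)) → ∀ j, Admissible (g j) →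
    ∀ ε : ℝ, 0 < ε → ∃ N₀ : ℕ, ∀ N : ℕ, N₀ ≤ N →
      ‖∑ n ∈ Icc 1 N, (∏ i, g i (a i * n + b i)) / n‖ ≤
        (1 - c k) * ∑ n ∈ Icc 1 N, ‖g j (a j * n + b j)‖ / n + ε * Real.log N := by
  obtain ⟨c, hc0, -, h⟩ := Pool.Agent.R512.G.finR
  refine ⟨c, hc0, fun k a b ha hab g hg j hj => ?_⟩
  have hj' : Pool.Agent.R512.G.Adm (g j) := by
    rcases hj with hr | ⟨f, ⟨h0, h1, hm, hv⟩, hN, hP⟩
    · exact Or.inl hr
    · exact Or.inr ⟨f, ⟨h0, h1, hm, hv⟩, hN, hP⟩
  obtain ⟨𝓔, h1, h2⟩ := h k a b ha hab g hg j hj'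
  intro ε hε
  obtain ⟨N₀, h3⟩ := h2 ε hε
  exact ⟨N₀, fun N hN => (h3 N hN).2⟩

end Pool.Agent.Results.MP_58cfe3_nt.LogGapRealFactor
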