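import Pool.Agent.R512.Q.FinA

/-!
# Logarithmic Elliott conjecture: a uniform gap when one factor is near a twist of a completely multiplicative
function with values in the roots of unity, such as `z ^ Ω(n)`, and the others are arbitrary
-/

set_option autoImplicit false

namespace Pool.Agent.Results.MP_58cfe3_nt.LogGapRootsOfUnity

open Finset Filter Topology

/-- `1`-bounded multiplicative functions on the positive integers -/
def IsMult (g : ℕ → ℂ) : Prop :=
  (∀ n, ‖g n‖ ≤ 1) ∧ ∀ m n : ℕ, 1 ≤ m → 1 ≤ n → Nat.Coprime m n → g (m * n) = g m * g n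

/-- the prime signature of `n`: the multiset of the exponents of the primes dividing `n` -/
def signature (n : ℕ) : Multiset ℕ := n.primeFactors.val.map (fun p => n.factorization p)

/-- the part of `n` composed of the primes up to `y` -/
def smoothPart (y n : ℕ) : ℕ := ∏ p ∈ n.primeFactors.filter (fun p => p ≤ y), p ^ n.factorization p

/-- the product of an arbitrary function, bounded by one, of the `y`-smooth part and of the prime signature
(for some `y`), and of an arbitrary `1`-bounded multiplicative function -/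
def Coarse (g : ℕ → ℂ) : Prop := ∃ (y : ℕ) (B : ℕ → Multiset ℕ → ℂ) (u : ℕ → ℂ), (∀ s t, ‖B s t‖ ≤ 1) ∧ IsMult u ∧
  ∀ n : ℕ, g n = B (smoothPart y n) (signature n) * u n

/-- completely multiplicative on the positive integers, with values in the roots of unity of order `M` -/
def IsRootMult (M : ℕ) (f : ℕ → ℂ) : Prop :=
  (∀ n, n ≠ 0 → f n ^ M = 1) ∧ ∀ m n : ℕ, m ≠ 0 → n ≠ 0 → f (m * n) = f m * f n

/-- some power of `f` is constant, not equal to one, at the primes (for instance `f(n) = z ^ Ω(n)`), or real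
valued and at infinite pretentious distance from all real Dirichlet characters -/
def HasAperiodicPower (f : ℕ → ℂ) : Prop := ∃ r : ℕ, (∃ w : ℂ, w ≠ 1 ∧ ∀ p : ℕ, p.Prime → f p ^ r = w) ∨
  ((∀ n : ℕ, n ≠ 0 → (f n ^ r) ^ 2 = 1) ∧ ∀ (Q : ℕ) (χ : DirichletCharacter ℂ Q), 1 ≤ Q → χ ^ 2 = 1 →
    ¬ Summable (fun p : Nat.Primes => (1 - (f p ^ r * χ ((p : ℕ) : ZMod Q)).re) / ((p : ℕ) : ℝ)))

/-- finite pretentious distance, over all the primes, from `f(n) χ(n) n ^ (i t)` for some Dirichlet character `χ`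
and some real `t` -/
def Pretends (f g : ℕ → ℂ) : Prop := ∃ (q : ℕ) (χ : DirichletCharacter ℂ q) (t : ℝ), 1 ≤ q ∧
  Summable (fun p : Nat.Primes => (1 - (g p * (starRingEnd ℂ) (f p * χ ((p : ℕ) : ZMod q) *
    Complex.exp (((t * Real.log p : ℝ) : ℂ) * Complex.I))).re) / ((p : ℕ) : ℝ))

/-- **Theorem.** There are `c(M, k) > 0` such that the following holds. Let `f` be completely multiplicative with
values in the roots of unity of order `M`, with a power which is constant `≠ 1` at the primes or real and aperiodic;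
let `g j` be `1`-bounded multiplicative and pretend to be `f(n) χ(n) n ^ (i t)`; let the other functions `g i` be
arbitrary `1`-bounded multiplicative functions times arbitrary bounded functions of the prime signature and of the
smooth part. Then the logarithmically averaged correlations of `g 1, ..., g k` along pairwise non-proportional linear
forms, up to every large `N`, are at most `(1 - c(M, k))` times the trivial bound coming from `g j`. -/
theorem result : ∃ c : ℕ → ℕ → ℝ, (∀ M k, 0 < c M k) ∧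
    ∀ M : ℕ, 1 ≤ M → ∀ (k : ℕ) (a b : Fin k → ℕ), (∀ i, 1 ≤ a i) → (∀ i j, i ≠ j → a i * b j ≠ a j * b i) →
    ∀ (j : Fin k) (g : Fin k → ℕ → ℂ), (∀ i, i ≠ j → Coarse (g i)) → IsMult (g j) →
    ∀ f : ℕ → ℂ, IsRootMult M f → HasAperiodicPower f → Pretends f (g j) →
    ∀ ε : ℝ, 0 < ε → ∃ N₀ : ℕ, ∀ N : ℕ, N₀ ≤ N →
      ‖∑ n ∈ Icc 1 N, (∏ i, g i (a i * n + b i)) / n‖ ≤
        (1 - c M k) * ∑ n ∈ Icc 1 N, ‖g j (a j * n + b j)‖ / n + ε * Real.log N := by
  obtain ⟨c, hc0, -, h⟩ := Pool.Agent.R512.Q.finA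
  refine ⟨c, hc0, fun M hM k a b ha hab j g hg hgj f hf hap hP => ?_⟩
  obtain ⟨𝓔, h1, h2⟩ := h M hM k a b ha hab j g (fun i hi => by
    obtain ⟨y, B, u, hB, hu, h2⟩ := hg i hi
    have h3 := Pool.Agent.R512.Q.sig_OM y B hB u hu
    refine (congrArg Pool.Agent.R512.Q.OM ?_).mpr h3
    funext n
    exact h2 n) hgj f ⟨hf.1, hf.2, hap⟩ hP
  intro ε hε
  obtain ⟨N₀, h3⟩ := h2 ε hε
  exact ⟨N₀, fun N hN => (h3 N hN).2⟩

end Pool.Agent.Results.MP_58cfe3_nt.LogGapRootsOfUnity
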